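import Pool.Agent.V11106.UB.Main
import Pool.Agent.V11106.UB.Plan

set_option autoImplicit false

/-!
# The planar bound for the unit bar visibility number is never attained

Every planar graph `G` has `ub(G) ≤ ⌈(Δ(G) + 1) / 3⌉ + 1`. The definitions (`seg`, `Sees`, `IsRep`,
`ub`) are in `Pool.Agent.V11106.UB.Defs`; planarity (`IsPlanar`, by rotation systems and Euler's
formula, and `HasStraightLineDrawing`) is in `Pool.Agent.H239R2.Cover.PlanarDefs`.
-/

namespace Pool.Agent.Results.MP_482ee1_co.PlanarUpperBound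

open Pool.Agent.V11106.UB
open Pool.Agent.H239R2.Planar (IsPlanar HasStraightLineDrawing)

theorem ceil_bound (D : ℕ) : D / 3 + 2 ≤ ⌈((D : ℚ) + 1) / 3⌉₊ + 1 := by
  have h1 : D / 3 < ⌈((D : ℚ) + 1) / 3⌉₊ := by
    rw [Nat.lt_ceil, lt_div_iff₀ (by norm_num)]
    have h2 : D / 3 * 3 < D + 1 := by omega
    exact_mod_cast h2
  omega

open Classical in
theorem card_eq {V : Type} [Fintype V] (G : SimpleGraph V) (S : Finset V) :
    Nat.card {e : Sym2 V // e ∈ G.edgeSet ∧ ∀ v ∈ e, v ∈ S} =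
      (Finset.univ.filter (fun e : Sym2 V => e ∈ G.edgeSet ∧ ∀ v ∈ e, v ∈ S)).card := by
  rw [Nat.card_eq_fintype_card, Fintype.card_subtype]

theorem sparse_case (V : Type) [Fintype V] (G : SimpleGraph V) [DecidableRel G.Adj]
    (h : ∀ S : Finset V,
      Nat.card {e : Sym2 V // e ∈ G.edgeSet ∧ ∀ v ∈ e, v ∈ S} ≤ 3 * S.card) :
    0 < ub G ∧ (∃ B, IsRep G (ub G) B) ∧ ub G ≤ ⌈((G.maxDegree : ℚ) + 1) / 3⌉₊ + 1 := by
  have h0 : ∃ B, IsRep G (G.maxDegree / 3 + 2) B := by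
    obtain ⟨B, hB⟩ := main_rep G (fun S => (card_eq G S).symm.trans_le (h S))
    have e : ∀ (i j : DecidableRel G.Adj),
        @SimpleGraph.maxDegree V G _ i = @SimpleGraph.maxDegree V G _ j :=
      fun i j => by rw [Subsingleton.elim i j]
    refine ⟨B, ?_⟩
    rw [e _ _]
    exact hB
  have h1 : G.maxDegree / 3 + 2 ∈ {t | 0 < t ∧ ∃ B, IsRep G t B} := ⟨by omega, h0⟩
  have h2 := Nat.sInf_mem ⟨_, h1⟩
  exact ⟨h2.1, h2.2, (Nat.sInf_le h1).trans (ceil_bound _)⟩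

/-- **Result.** (1) Let `G` be a finite simple graph in which every set `S` of vertices spans at
most `3 |S|` edges. Then `G` has a `t`-unit-bar visibility representation with
`t = ⌈(Δ(G) + 1) / 3⌉ + 1`, so `ub(G) ≤ ⌈(Δ(G) + 1) / 3⌉ + 1`.
(2) This holds for every planar graph `G`; hence no planar graph has
`ub(G) = ⌈(Δ(G) + 1) / 3⌉ + 2`. -/
theorem result :
    (∀ (V : Type) [Fintype V] (G : SimpleGraph V) [DecidableRel G.Adj],
      (∀ S : Finset V,
        Nat.card {e : Sym2 V // e ∈ G.edgeSet ∧ ∀ v ∈ e, v ∈ S} ≤ 3 * S.card) →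
      0 < ub G ∧ (∃ B, IsRep G (ub G) B) ∧ ub G ≤ ⌈((G.maxDegree : ℚ) + 1) / 3⌉₊ + 1) ∧
    (∀ (V : Type) [Fintype V] (G : SimpleGraph V) [DecidableRel G.Adj],
      IsPlanar G ∨ HasStraightLineDrawing G →
      0 < ub G ∧ (∃ B, IsRep G (ub G) B) ∧
      ub G ≤ ⌈((G.maxDegree : ℚ) + 1) / 3⌉₊ + 1 ∧
      ub G ≠ ⌈((G.maxDegree : ℚ) + 1) / 3⌉₊ + 2) := by
  refine ⟨fun V _ G _ h => sparse_case V G h, fun V _ G _ h => ?_⟩
  obtain ⟨h1, h2, h3⟩ := sparse_case V G (fun S => (card_eq G S).trans_le (planar_hyp G h S))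
  exact ⟨h1, h2, h3, by omega⟩

end Pool.Agent.Results.MP_482ee1_co.PlanarUpperBound
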